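import Pool.Agent.H468.WV.Box

/-!
# The joint Erdős–Kac theorem for several additive functions on squarefree numbers in residue classes
(after `H468.WX.Ekf`)
-/

set_option autoImplicit false
set_option linter.all false

open scoped Classical

namespace Pool.Agent.H468.WV

open Finset Filter Topology
open Pool.Agent.H998_EK (Phi Phi_cont Phi_nonneg Phi_le_one box_lim FF Am Bq AddF)
open Pool.Agent.H468.WM (LL LL_top LL_close ap_card filter_card_congr SqD sqD_mod tail_card)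

variable {ι : Type} [Fintype ι] {f : ι → ℕ → ℝ} {mu lam : ι → ℝ}

/-- the event -/
def Ev (f : ι → ℕ → ℝ) (T : ι → ℝ) (n : ℕ) : Prop := ∀ i, f i n ≤ T i

/-- the limit -/
noncomputable def kap (y : ι → ℝ) : ℝ := ∏ i, Phi (y i)

theorem kap_nonneg (y : ι → ℝ) : 0 ≤ kap y := prod_nonneg fun i _ => Phi_nonneg _

theorem kap_le_one (y : ι → ℝ) : kap y ≤ 1 := prod_le_one (fun i _ => Phi_nonneg _) fun i _ => Phi_le_one _

/-- the thresholds -/
def Near (mu lam y : ι → ℝ) (δ : ℝ) (Y : ℕ) (T : ι → ℝ) : Prop :=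
  ∀ i, |T i - (mu i * LL Y + y i * (√(lam i) * √(LL Y)))| ≤ δ * √(LL Y)

theorem Near.mono {y : ι → ℝ} {δ δ' : ℝ} {Y : ℕ} {T : ι → ℝ} (h : Near mu lam y δ Y T) (hd : δ ≤ δ') :
    Near mu lam y δ' Y T := fun i => (h i).trans (mul_le_mul_of_nonneg_right hd (Real.sqrt_nonneg _))

/-- the thresholds in two normalisations -/
theorem shift_v (mu lam y : ι → ℝ) {η : ℝ} (hη : 0 < η) : ∃ s₀ : ℝ, 1 ≤ s₀ ∧ ∀ Y J : ℕ,
    s₀ ^ 2 ≤ LL Y → 0 ≤ LL J → |LL Y - LL J| ≤ 1 → ∀ T : ι → ℝ, Near mu lam y (η / 4) Y T →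
    Near mu lam y η J T := by
  obtain ⟨D, hD⟩ : ∃ D : ℝ, D = ∑ i, (|mu i| + |y i| * √(lam i)) := ⟨_, rfl⟩
  have hD0 : 0 ≤ D := by
    rw [hD]
    exact sum_nonneg fun i _ => by positivity
  have hDi : ∀ i, |mu i| + |y i| * √(lam i) ≤ D := by
    intro i
    rw [hD]
    exact single_le_sum (f := fun i => |mu i| + |y i| * √(lam i)) (fun i _ => by positivity) (mem_univ i)
  refine ⟨2 + 4 * D / η, ?_, fun Y J hY hJ hYJ T hT i => ?_⟩
  · have : 0 ≤ 4 * D / η := by positivity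
    linarith
  have h0 : 0 ≤ 4 * D / η := by positivity
  obtain ⟨s, hs⟩ : ∃ s : ℝ, s = √(LL Y) := ⟨_, rfl⟩
  obtain ⟨t, ht⟩ : ∃ t : ℝ, t = √(LL J) := ⟨_, rfl⟩
  have hLY : 0 ≤ LL Y := le_trans (by positivity) hY
  have es : s ^ 2 = LL Y := by rw [hs, Real.sq_sqrt hLY]
  have et : t ^ 2 = LL J := by rw [ht, Real.sq_sqrt hJ]
  have ht0 : 0 ≤ t := by rw [ht]; exact Real.sqrt_nonneg _
  have hs0 : 2 + 4 * D / η ≤ s := by
    rw [hs]
    exact Real.le_sqrt_of_sq_le hY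
  have hs2 : 2 ≤ s := by linarith
  have hs3 : 4 * D ≤ η * s := by
    have h1 : 4 * D / η ≤ s := by linarith
    rw [div_le_iff₀ hη] at h1
    linarith
  rw [← es, ← et] at hYJ
  have h1 : |s - t| * s ≤ 1 := by
    have h2 : |s - t| * (s + t) = |s ^ 2 - t ^ 2| := by
      have e : s ^ 2 - t ^ 2 = (s - t) * (s + t) := by ring
      rw [e, abs_mul, abs_of_nonneg (by linarith : 0 ≤ s + t)]
    have h3 : 0 ≤ |s - t| := abs_nonneg _
    nlinarith
  have h2 : |s - t| ≤ 1 := by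
    have h3 : 0 ≤ |s - t| := abs_nonneg _
    nlinarith
  have h3 : s / 2 ≤ t := by
    have h4 := (abs_le.1 (le_refl |s - t|)).2
    linarith
  have hTi := hT i
  rw [← hs, ← es] at hTi
  rw [← ht, ← et]
  have h4 : |T i - (mu i * t ^ 2 + y i * (√(lam i) * t))| ≤
      |T i - (mu i * s ^ 2 + y i * (√(lam i) * s))| + |mu i| * |s ^ 2 - t ^ 2| +
        |y i| * √(lam i) * |s - t| := by
    have e : T i - (mu i * t ^ 2 + y i * (√(lam i) * t)) = (T i - (mu i * s ^ 2 +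
        y i * (√(lam i) * s))) + mu i * (s ^ 2 - t ^ 2) + y i * √(lam i) * (s - t) := by ring
    rw [e]
    refine (abs_add_le _ _).trans ?_
    rw [abs_mul (y i * √(lam i)), abs_mul (y i), abs_of_nonneg (Real.sqrt_nonneg (lam i)),
      ← abs_mul (mu i)]
    exact add_le_add (abs_add_le _ _) le_rfl
  have h5 : |mu i| * |s ^ 2 - t ^ 2| ≤ |mu i| * 1 := mul_le_mul_of_nonneg_left hYJ (abs_nonneg _)
  have h6 : |y i| * √(lam i) * |s - t| ≤ |y i| * √(lam i) * 1 :=
    mul_le_mul_of_nonneg_left h2 (mul_nonneg (abs_nonneg _) (Real.sqrt_nonneg _))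
  have h7 : η * (s / 2) ≤ η * t := mul_le_mul_of_nonneg_left h3 hη.le
  have h8 := hDi i
  linarith

/-- **Erdős–Kac for a linear form, uniformly in the thresholds** -/
theorem ek1 (hf : Vec f mu lam) {A B : ℕ} (hA : 1 ≤ A) (y : ι → ℝ) (ε : ℝ) (hε : 0 < ε) :
    ∃ (δ : ℝ) (N₀ : ℕ), 0 < δ ∧
    ∀ N : ℕ, N₀ ≤ N → ∀ T : ι → ℝ, Near mu lam y δ N T →
      |(((range N).filter fun n => Ev f T (A * n + B)).card : ℝ) - kap y * N| ≤ ε * N := by
  obtain ⟨η, hη, hη1, hη2⟩ : ∃ η : ℝ, 0 < η ∧ |(∏ i, Phi (y i + η)) - kap y| < ε / 2 ∧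
      |(∏ i, Phi (y i + -η)) - kap y| < ε / 2 := by
    have hc : Continuous fun x : ℝ => ∏ i, Phi (y i + x) :=
      continuous_finsetProd _ fun i _ => Phi_cont.comp (continuous_const.add continuous_id)
    obtain ⟨δ, hδ, h⟩ := Metric.continuousAt_iff.1 (hc.continuousAt (x := 0)) (ε / 2) (by positivity)
    simp only [Real.dist_eq, add_zero, sub_zero] at h
    refine ⟨δ / 2, by positivity, h ?_, h ?_⟩
    · rw [abs_of_pos (by positivity)]; linarith
    · rw [abs_neg, abs_of_pos (by positivity)]; linarith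
  obtain ⟨l, hl, hlam⟩ := hf.low
  have hup := box_v hf (B := B) hA fun i => y i + η
  have hlo := box_v hf (B := B) hA fun i => y i + -η
  obtain ⟨X₁, hX₁⟩ := Metric.tendsto_atTop.1 hup (ε / 2) (by positivity)
  obtain ⟨X₂, hX₂⟩ := Metric.tendsto_atTop.1 hlo (ε / 2) (by positivity)
  obtain ⟨X₃, hX₃⟩ := eventually_atTop.1 ll_pos
  refine ⟨η * √l, 3 + X₁ + X₂ + X₃, mul_pos hη (Real.sqrt_pos.2 hl), fun N hN T hT => ?_⟩
  have hL : 0 < LL N := hX₃ N (by omega)
  have ht0 : 0 < √(LL N) := Real.sqrt_pos.2 hL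
  have hN0 : (0 : ℝ) < N := by exact_mod_cast (by omega : 0 < N)
  have a1 := hX₁ N (by omega)
  have a2 := hX₂ N (by omega)
  rw [Real.dist_eq] at a1 a2
  have hq : ∀ i, 0 < √(lam i) * √(LL N) := fun i => mul_pos (Real.sqrt_pos.2 (hf.pos i)) ht0
  have hd : ∀ i, η * √l * √(LL N) ≤ η * (√(lam i) * √(LL N)) := by
    intro i
    rw [mul_assoc]
    exact mul_le_mul_of_nonneg_left (mul_le_mul_of_nonneg_right (Real.sqrt_le_sqrt (hlam i)) ht0.le) hη.le
  have c1 : (((range N).filter fun n => Ev f T (A * n + B)).card : ℝ) ≤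
      (((range N).filter fun n => ∀ i, vv f mu lam N (A * n + B) i ≤ y i + η).card : ℝ) := by
    refine Nat.cast_le.2 (card_le_card fun n hn => ?_)
    rw [mem_filter] at hn ⊢
    refine ⟨hn.1, fun i => ?_⟩
    unfold vv
    rw [div_le_iff₀ (hq i)]
    have h1 := hn.2 i
    have h2 := (abs_le.1 (hT i)).2
    have h3 := hd i
    linarith
  have c2 : (((range N).filter fun n => ∀ i, vv f mu lam N (A * n + B) i ≤ y i + -η).card : ℝ) ≤
      (((range N).filter fun n => Ev f T (A * n + B)).card : ℝ) := by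
    refine Nat.cast_le.2 (card_le_card fun n hn => ?_)
    rw [mem_filter] at hn ⊢
    refine ⟨hn.1, fun i => ?_⟩
    have h1 := hn.2 i
    unfold vv at h1
    rw [div_le_iff₀ (hq i)] at h1
    have h2 := (abs_le.1 (hT i)).1
    have h3 := hd i
    linarith
  have b1 : (((range N).filter fun n => ∀ i, vv f mu lam N (A * n + B) i ≤ y i + η).card : ℝ) ≤
      (kap y + ε) * N := by
    have h3 := (abs_lt.1 a1).2
    have h4 := (abs_lt.1 hη1).2
    have h5 : (((range N).filter fun n => ∀ i, vv f mu lam N (A * n + B) i ≤ y i + η).card : ℝ) / N ≤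
        kap y + ε := by linarith
    rwa [div_le_iff₀ hN0] at h5
  have b2 : (kap y - ε) * N ≤
      (((range N).filter fun n => ∀ i, vv f mu lam N (A * n + B) i ≤ y i + -η).card : ℝ) := by
    have h3 := (abs_lt.1 a2).1
    have h4 := (abs_lt.1 hη2).1
    have h5 : kap y - ε ≤
        (((range N).filter fun n => ∀ i, vv f mu lam N (A * n + B) i ≤ y i + -η).card : ℝ) / N := by
      linarith
    rwa [le_div_iff₀ hN0] at h5
  rw [abs_le]
  constructor <;> linarith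

/-- the Erdős–Kac theorem for the numbers with the property `R`, uniformly in the threshold -/
def EKP (f : ι → ℕ → ℝ) (mu lam : ι → ℝ) (R : ℕ → Prop) (y : ι → ℝ) : Prop :=
  ∀ ε : ℝ, 0 < ε → ∃ (δ : ℝ) (Y₀ : ℕ), 0 < δ ∧
  ∀ Y : ℕ, Y₀ ≤ Y → ∀ T : ι → ℝ, Near mu lam y δ Y T →
    |(((Icc 1 Y).filter fun n => R n ∧ Ev f T n).card : ℝ) -
      kap y * (((Icc 1 Y).filter fun n => R n).card : ℝ)| ≤ ε * Y

theorem EKP.congr {R R' : ℕ → Prop} {y : ι → ℝ} (h : EKP f mu lam R y) (hR : ∀ n, 0 < n → (R n ↔ R' n)) :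
    EKP f mu lam R' y := by
  intro ε hε
  obtain ⟨δ, Y₀, hδ, h1⟩ := h ε hε
  refine ⟨δ, Y₀, hδ, fun Y hY T hT => ?_⟩
  have e1 : ((Icc 1 Y).filter fun n => R' n ∧ Ev f T n).card =
      ((Icc 1 Y).filter fun n => R n ∧ Ev f T n).card :=
    filter_card_congr _ fun n hn => by
      rw [mem_Icc] at hn
      rw [hR n (by omega)]
  have e2 : ((Icc 1 Y).filter fun n => R' n).card = ((Icc 1 Y).filter fun n => R n).card :=
    filter_card_congr _ fun n hn => by
      rw [mem_Icc] at hn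
      rw [hR n (by omega)]
  rw [e1, e2]
  exact h1 Y hY T hT

theorem EKP.false (y : ι → ℝ) : EKP f mu lam (fun _ => False) y := by
  intro ε hε
  refine ⟨1, 0, one_pos, fun Y _ T _ => ?_⟩
  simp only [false_and, filter_false, card_empty, Nat.cast_zero, mul_zero, sub_zero, abs_zero]
  positivity

/-- disjoint unions -/
theorem EKP.or {R R' R'' : ℕ → Prop} {y : ι → ℝ} (h : EKP f mu lam R y) (h' : EKP f mu lam R' y)
    (hd : ∀ n, R n → R' n → False) (hR : ∀ n, R'' n ↔ (R n ∨ R' n)) : EKP f mu lam R'' y := by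
  intro ε hε
  obtain ⟨δ, Y₀, hδ, h1⟩ := h (ε / 2) (by positivity)
  obtain ⟨δ', Y₀', hδ', h1'⟩ := h' (ε / 2) (by positivity)
  refine ⟨min δ δ', Y₀ + Y₀', lt_min hδ hδ', fun Y hY T hT => ?_⟩
  have b1 := h1 Y (by omega) T (hT.mono (min_le_left _ _))
  have b2 := h1' Y (by omega) T (hT.mono (min_le_right _ _))
  have key : ∀ Q : ℕ → Prop, ((Icc 1 Y).filter fun n => R'' n ∧ Q n).card =
      ((Icc 1 Y).filter fun n => R n ∧ Q n).card + ((Icc 1 Y).filter fun n => R' n ∧ Q n).card := by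
    intro Q
    rw [← card_union_of_disjoint]
    · congr 1
      ext n
      simp only [mem_filter, mem_union, hR]
      tauto
    · rw [Finset.disjoint_left]
      intro n h3 h4
      exact hd n (mem_filter.1 h3).2.1 (mem_filter.1 h4).2.1
  have k1 := key fun n => Ev f T n
  have k2 := key fun _ => True
  simp only [and_true] at k2
  have k1' := congrArg (Nat.cast : ℕ → ℝ) k1
  have k2' := congrArg (Nat.cast : ℕ → ℝ) k2
  push_cast at k1' k2'
  rw [abs_le] at b1 b2 ⊢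
  rw [k1', k2']
  constructor
  · linarith [b1.1, b2.1]
  · linarith [b1.2, b2.2]

/-- approximation from above -/
theorem EKP.approx {R : ℕ → Prop} {y : ι → ℝ} (h : ∀ ε : ℝ, 0 < ε → ∃ R' : ℕ → Prop, EKP f mu lam R' y ∧
    (∀ n, R n → R' n) ∧ ∃ Y₀ : ℕ, ∀ Y : ℕ, Y₀ ≤ Y →
      (((Icc 1 Y).filter fun n => R' n ∧ ¬ R n).card : ℝ) ≤ ε * Y) : EKP f mu lam R y := by
  intro ε hε
  obtain ⟨R', h1, h2, Y₁, h3⟩ := h (ε / 4) (by positivity)
  obtain ⟨δ, Y₀, hδ, h4⟩ := h1 (ε / 4) (by positivity)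
  refine ⟨δ, Y₀ + Y₁, hδ, fun Y hY T hT => ?_⟩
  have b1 := h4 Y (by omega) T hT
  have b2 := h3 Y (by omega)
  have key : ∀ Q : ℕ → Prop, ((Icc 1 Y).filter fun n => R n ∧ Q n).card ≤
      ((Icc 1 Y).filter fun n => R' n ∧ Q n).card ∧ ((Icc 1 Y).filter fun n => R' n ∧ Q n).card ≤
      ((Icc 1 Y).filter fun n => R n ∧ Q n).card +
        ((Icc 1 Y).filter fun n => R' n ∧ ¬ R n).card := by
    intro Q
    constructor
    · refine card_le_card fun n hn => ?_
      rw [mem_filter] at hn ⊢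
      exact ⟨hn.1, h2 n hn.2.1, hn.2.2⟩
    · refine le_trans (card_le_card ?_) (card_union_le _ _)
      intro n hn
      rw [mem_union, mem_filter, mem_filter]
      rw [mem_filter] at hn
      by_cases hR : R n
      · exact Or.inl ⟨hn.1, hR, hn.2.2⟩
      · exact Or.inr ⟨hn.1, hn.2.1, hR⟩
  obtain ⟨k1, k2⟩ := key fun n => Ev f T n
  obtain ⟨k3, k4⟩ := key fun _ => True
  simp only [and_true] at k3 k4
  have k1' : (((Icc 1 Y).filter fun n => R n ∧ Ev f T n).card : ℝ) ≤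
      (((Icc 1 Y).filter fun n => R' n ∧ Ev f T n).card : ℝ) := by exact_mod_cast k1
  have k2' : (((Icc 1 Y).filter fun n => R' n ∧ Ev f T n).card : ℝ) ≤
      (((Icc 1 Y).filter fun n => R n ∧ Ev f T n).card : ℝ) +
      (((Icc 1 Y).filter fun n => R' n ∧ ¬ R n).card : ℝ) := by exact_mod_cast k2
  have k3' : (((Icc 1 Y).filter fun n => R n).card : ℝ) ≤
      (((Icc 1 Y).filter fun n => R' n).card : ℝ) := by exact_mod_cast k3
  have k4' : (((Icc 1 Y).filter fun n => R' n).card : ℝ) ≤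
      (((Icc 1 Y).filter fun n => R n).card : ℝ) +
      (((Icc 1 Y).filter fun n => R' n ∧ ¬ R n).card : ℝ) := by exact_mod_cast k4
  have p0 := kap_nonneg y
  have p1 := kap_le_one y
  set r : ℝ := (((Icc 1 Y).filter fun n => R n).card : ℝ) with hr
  set r' : ℝ := (((Icc 1 Y).filter fun n => R' n).card : ℝ) with hr'
  have hm1 : kap y * r ≤ kap y * r' := mul_le_mul_of_nonneg_left k3' p0
  have hm2 : kap y * r' ≤ kap y * r + ε / 4 * Y := by
    have h5 : kap y * (r' - r) ≤ 1 * (r' - r) := mul_le_mul_of_nonneg_right p1 (by linarith)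
    linarith
  rw [abs_le] at b1 ⊢
  constructor
  · linarith [b1.1]
  · linarith [b1.2]

/-- **Erdős–Kac in a residue class** -/
theorem ekp_class (hf : Vec f mu lam) {M b : ℕ} (hM : 0 < M) (hb : b < M) (y : ι → ℝ) {R : ℕ → Prop}
    (hR : ∀ n, R n ↔ n % M = b) : EKP f mu lam R y := by
  intro ε hε
  obtain ⟨δ, N₀, hδ, h1⟩ := ek1 hf (A := M) (B := b) hM y (ε / 4) (by positivity)
  obtain ⟨s₀, hs₀, hsh⟩ := shift_v mu lam y hδ
  obtain ⟨X₃, hX₃⟩ := eventually_atTop.1 (LL_top.eventually (eventually_ge_atTop (s₀ ^ 2)))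
  refine ⟨δ / 4, 9 + 4 * M ^ 2 + M * (N₀ + 4) + X₃ + ⌈4 / ε⌉₊, by positivity, fun Y hY T hT => ?_⟩
  have hMY : M ≤ Y := by nlinarith
  have hY9 : 9 ≤ Y := by omega
  obtain ⟨J, hJ⟩ : ∃ J : ℕ, J = (Y - b) / M + 1 := ⟨_, rfl⟩
  have hJ1 : Y < (J + 1) * M := by
    have h2 : Y - b < ((Y - b) / M + 1) * M := Nat.lt_mul_of_div_lt (Nat.lt_succ_self _) hM
    rw [← hJ] at h2
    have h3 : (J + 1) * M = J * M + M := by ring
    omega
  have hJ2 : N₀ + 3 ≤ J := by
    by_contra hc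
    have h3 : J + 1 ≤ N₀ + 3 := by omega
    have h4 : (J + 1) * M ≤ (N₀ + 3) * M := Nat.mul_le_mul_right _ h3
    have h5 : M * (N₀ + 4) = (N₀ + 3) * M + M := by ring
    omega
  have hJY : J ≤ Y + 1 := by
    rw [hJ]
    have := Nat.div_le_self (Y - b) M
    omega
  have hsq : Y ≤ J ^ 2 := by
    have h3 : Y < 2 * J * M := by
      have : (J + 1) * M ≤ 2 * J * M := Nat.mul_le_mul_right _ (by omega)
      omega
    have h4 : 4 * M ^ 2 ≤ Y := by omega
    by_contra hc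
    push Not at hc
    have h5 : Y * Y < 2 * J * M * (2 * J * M) := Nat.mul_lt_mul'' h3 h3
    have h6 : 2 * J * M * (2 * J * M) = 4 * M ^ 2 * J ^ 2 := by ring
    have h7 : 4 * M ^ 2 * J ^ 2 ≤ Y * Y := Nat.mul_le_mul h4 hc.le
    omega
  have hsq2 : J ≤ Y ^ 2 := by nlinarith
  have hL : s₀ ^ 2 ≤ LL Y := hX₃ Y (by omega)
  have hJL0 : 0 ≤ LL J := by
    have h3 : (3 : ℝ) ≤ J := by exact_mod_cast (by omega : 3 ≤ J)
    unfold Pool.Agent.H468.WM.LL
    apply Real.log_nonneg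
    rw [Real.le_log_iff_exp_le (by linarith)]
    have := Real.exp_one_lt_d9
    linarith
  have h2 := hsh Y J hL hJL0 (LL_close hsq hsq2 (by omega) (by omega)) T hT
  have h3 := h1 J (by omega) T h2
  obtain ⟨k1, k2⟩ := ap_card hM hb hMY fun n => Ev f T n
  obtain ⟨k3, k4⟩ := ap_card hM hb hMY fun _ => True
  rw [← hJ] at k1 k2 k3 k4
  simp only [and_true, filter_true, card_range] at k3 k4
  have k1' : (((Icc 1 Y).filter fun n => n % M = b ∧ Ev f T n).card : ℝ) ≤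
      (((range J).filter fun j => Ev f T (M * j + b)).card : ℝ) := by exact_mod_cast k1
  have k2' : (((range J).filter fun j => Ev f T (M * j + b)).card : ℝ) ≤
      (((Icc 1 Y).filter fun n => n % M = b ∧ Ev f T n).card : ℝ) + 1 := by exact_mod_cast k2
  have k3' : (((Icc 1 Y).filter fun n => n % M = b).card : ℝ) ≤ J := by exact_mod_cast k3
  have k4' : (J : ℝ) ≤ (((Icc 1 Y).filter fun n => n % M = b).card : ℝ) + 1 := by exact_mod_cast k4
  have p0 := kap_nonneg y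
  have p1 := kap_le_one y
  set r : ℝ := (((Icc 1 Y).filter fun n => n % M = b).card : ℝ) with hr
  have m1 : kap y * r ≤ kap y * J := mul_le_mul_of_nonneg_left k3' p0
  have m2 : kap y * J ≤ kap y * r + 1 := by
    have h5 : kap y * (J - r) ≤ 1 * (J - r) := mul_le_mul_of_nonneg_right p1 (by linarith)
    linarith
  have hJY' : (J : ℝ) ≤ Y + 1 := by exact_mod_cast hJY
  have hYe : 4 / ε ≤ (Y : ℝ) := (Nat.le_ceil _).trans (by exact_mod_cast (by omega))
  have hYe' : 4 ≤ ε * Y := by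
    rw [div_le_iff₀ hε] at hYe
    linarith
  have hY1 : (1 : ℝ) ≤ Y := by exact_mod_cast (by omega : 1 ≤ Y)
  have hJe : ε / 4 * (J : ℝ) ≤ ε / 4 * (Y + Y) :=
    mul_le_mul_of_nonneg_left (by linarith) (by positivity)
  have e1 : ((Icc 1 Y).filter fun n => R n ∧ Ev f T n).card =
      ((Icc 1 Y).filter fun n => n % M = b ∧ Ev f T n).card :=
    filter_card_congr _ fun n _ => by rw [hR n]
  have e2 : ((Icc 1 Y).filter fun n => R n).card = ((Icc 1 Y).filter fun n => n % M = b).card :=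
    filter_card_congr _ fun n _ => by rw [hR n]
  rw [e1, e2]
  rw [abs_le] at h3 ⊢
  constructor
  · linarith [h3.1]
  · linarith [h3.2]

theorem ekp_classes (hf : Vec f mu lam) {M : ℕ} (hM : 0 < M) (y : ι → ℝ) (B : Finset ℕ) (hB : B ⊆ range M) :
    EKP f mu lam (fun n => n % M ∈ B) y := by
  induction B using Finset.induction_on with
  | empty => exact (EKP.false y).congr fun n _ => by simp
  | insert b B hb ih =>
    have h1 := ih fun x hx => hB (mem_insert_of_mem hx)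
    have h2 := ekp_class hf (R := fun n => n % M = b) hM (mem_range.1 (hB (mem_insert_self b B))) y
      fun n => Iff.rfl
    refine h2.or h1 (fun n h3 h4 => hb (by rw [← h3]; exact h4)) fun n => ?_
    rw [mem_insert]

/-- **Erdős–Kac for the squarefree numbers in residue classes** -/
theorem ekp_sqf (hf : Vec f mu lam) {M : ℕ} (hM : 0 < M) (y : ι → ℝ) (K : Finset ℕ) {R : ℕ → Prop}
    (hR : ∀ n, R n ↔ (Squarefree n ∧ n % M ∈ K)) : EKP f mu lam R y := by
  refine EKP.approx fun ε hε => ?_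
  obtain ⟨D, hD⟩ := exists_nat_gt (1 / ε)
  have hD0 : 0 < D := by
    rcases Nat.eq_zero_or_pos D with h | h
    · rw [h, Nat.cast_zero] at hD
      have : 0 < 1 / ε := by positivity
      linarith
    · exact h
  obtain ⟨M', hM'⟩ : ∃ M' : ℕ, M' = M * (D.factorial) ^ 2 := ⟨_, rfl⟩
  have hM'0 : 0 < M' := by
    rw [hM']
    exact Nat.mul_pos hM (pow_pos (Nat.factorial_pos D) 2)
  have hdiv : ∀ p : ℕ, p.Prime → p ≤ D → p ^ 2 ∣ M' := by
    intro p hp hpD
    rw [hM']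
    exact (pow_dvd_pow_of_dvd ((Nat.Prime.dvd_factorial hp).2 hpD) 2).mul_left M
  have hMM : M ∣ M' := by rw [hM']; exact Dvd.intro _ rfl
  obtain ⟨R', hR'⟩ : ∃ R' : ℕ → Prop, ∀ n, R' n ↔ (n % M ∈ K ∧ SqD D n) := ⟨_, fun n => Iff.rfl⟩
  refine ⟨R', ?_, ?_, 0, fun Y _ => ?_⟩
  · refine (ekp_classes hf hM'0 y ((range M').filter fun b => b % M ∈ K ∧ SqD D b)
      (filter_subset _ _)).congr fun n _ => ?_
    rw [mem_filter, mem_range, Nat.mod_mod_of_dvd n hMM, sqD_mod hdiv, hR']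
    exact ⟨fun h => h.2, fun h => ⟨Nat.mod_lt _ hM'0, h⟩⟩
  · intro n hn
    obtain ⟨h1, h2⟩ := (hR n).1 hn
    rw [hR']
    refine ⟨h2, fun p hp _ h3 => ?_⟩
    have h4 := h1 p (by rw [← sq]; exact h3)
    exact hp.one_lt.ne' (Nat.isUnit_iff.1 h4)
  · refine le_trans ?_ ((tail_card D Y hD0).trans ?_)
    · refine Nat.cast_le.2 (card_le_card fun n hn => ?_)
      rw [mem_filter] at hn ⊢
      refine ⟨hn.1, ?_⟩
      obtain ⟨h12, h3⟩ := hn.2
      obtain ⟨h1, h2⟩ := (hR' n).1 h12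
      have h4 : ¬ Squarefree n := fun h => h3 ((hR n).2 ⟨h, h1⟩)
      rw [Nat.squarefree_iff_prime_squarefree] at h4
      push Not at h4
      obtain ⟨p, hp, hpn⟩ := h4
      rw [← sq] at hpn
      refine ⟨p, ?_, hpn⟩
      by_contra hc
      exact h2 p hp (by omega) hpn
    · have hDr : (0 : ℝ) < D := by exact_mod_cast hD0
      rw [div_le_iff₀ hDr]
      rw [div_lt_iff₀ hε] at hD
      have hY0 : (0 : ℝ) ≤ Y := Nat.cast_nonneg _
      nlinarith

end Pool.Agent.H468.WV
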