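import Pool.Agent.H468.WM.Ek2

/-!
# The joint limit law of several additive functions at a linear form
-/

set_option autoImplicit false
set_option linter.all false

open scoped Classical

namespace Pool.Agent.H468.WV

open Finset Filter Topology MeasureTheory ProbabilityTheory
open Pool.Agent.H998_EK (Phi Phi_cont Phi_nonneg Phi_le_one box_lim char_lim levy_box FF Am Bq AddF)
open Pool.Agent.H468.WM (LL LL_top)

/-! ### perturbations of a characteristic function -/

theorem phi_eq (u : ℝ) : Phi u = cdf (gaussianReal 0 1) u := by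
  rw [cdf_eq_real]
  rfl

theorem phi_top : Tendsto Phi atTop (𝓝 1) :=
  (tendsto_cdf_atTop (gaussianReal 0 1)).congr fun u => (phi_eq u).symm

theorem phi_bot : Tendsto Phi atBot (𝓝 0) :=
  (tendsto_cdf_atBot (gaussianReal 0 1)).congr fun u => (phi_eq u).symm

theorem exp_sub_le (a b : ℝ) :
    ‖Complex.exp ((a : ℝ) * Complex.I) - Complex.exp ((b : ℝ) * Complex.I)‖ ≤ |a - b| := by
  have h1 : Complex.exp ((a : ℝ) * Complex.I) - Complex.exp ((b : ℝ) * Complex.I) =
      Complex.exp ((b : ℝ) * Complex.I) * (Complex.exp (Complex.I * ((a - b : ℝ) : ℂ)) - 1) := by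
    rw [mul_sub, ← Complex.exp_add, mul_one]
    congr 2
    push_cast
    ring
  rw [h1, norm_mul, Complex.norm_exp_ofReal_mul_I, one_mul]
  refine (Real.norm_exp_I_mul_ofReal_sub_one_le).trans (le_of_eq (Real.norm_eq_abs _))

theorem exp_sub_le_two (a b : ℝ) :
    ‖Complex.exp ((a : ℝ) * Complex.I) - Complex.exp ((b : ℝ) * Complex.I)‖ ≤ 2 := by
  refine (norm_sub_le _ _).trans ?_
  rw [Complex.norm_exp_ofReal_mul_I, Complex.norm_exp_ofReal_mul_I]
  norm_num

theorem perturb {x : ℕ → ℕ → ℝ} {s : ℝ} {a : ℂ} {rho eta : ℕ → ℝ}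
    (h1 : Tendsto (fun X : ℕ => (∑ n ∈ range X, Complex.exp ((s * x X n : ℝ) * Complex.I)) / (X : ℂ))
      atTop (𝓝 a))
    (h2 : ∀ ε : ℝ, 0 < ε → ∃ (K : ℝ) (N : ℕ), 0 < K ∧ ∀ X : ℕ, N ≤ X →
      (((range X).filter fun n => K < |x X n|).card : ℝ) ≤ ε * X)
    (hr : Tendsto rho atTop (𝓝 s)) (he : Tendsto eta atTop (𝓝 0)) :
    Tendsto (fun X : ℕ => (∑ n ∈ range X,
      Complex.exp ((rho X * x X n + eta X : ℝ) * Complex.I)) / (X : ℂ)) atTop (𝓝 a) := by
  have key : Tendsto (fun X : ℕ => (∑ n ∈ range X,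
      Complex.exp ((rho X * x X n + eta X : ℝ) * Complex.I)) / (X : ℂ) -
      (∑ n ∈ range X, Complex.exp ((s * x X n : ℝ) * Complex.I)) / (X : ℂ)) atTop (𝓝 0) := by
    rw [Metric.tendsto_atTop]
    intro ε hε
    obtain ⟨K, N, hK, h3⟩ := h2 (ε / 8) (by positivity)
    obtain ⟨N1, hN1⟩ := Metric.tendsto_atTop.1 hr (ε / (8 * K)) (by positivity)
    obtain ⟨N2, hN2⟩ := Metric.tendsto_atTop.1 he (ε / 8) (by positivity)
    refine ⟨N + N1 + N2 + 1, fun X hX => ?_⟩
    have b1 := hN1 X (by omega)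
    have b2 := hN2 X (by omega)
    have b3 := h3 X (by omega)
    rw [Real.dist_eq] at b1 b2
    rw [sub_zero] at b2
    have hX0 : (0 : ℝ) < X := by exact_mod_cast (by omega : 0 < X)
    rw [dist_zero_right, ← sub_div, ← sum_sub_distrib, norm_div, Complex.norm_natCast,
      div_lt_iff₀ hX0]
    have hs : ∀ n ∈ range X, ‖Complex.exp ((rho X * x X n + eta X : ℝ) * Complex.I) -
        Complex.exp ((s * x X n : ℝ) * Complex.I)‖ ≤
        (ε / 8 + ε / 8) + if K < |x X n| then 2 else 0 := by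
      intro n _
      by_cases hn : K < |x X n|
      · rw [if_pos hn]
        refine (exp_sub_le_two _ _).trans ?_
        linarith
      · rw [if_neg hn, add_zero]
        refine (exp_sub_le _ _).trans ?_
        have e : rho X * x X n + eta X - s * x X n = (rho X - s) * x X n + eta X := by ring
        rw [e]
        refine (abs_add_le _ _).trans (add_le_add ?_ b2.le)
        rw [abs_mul]
        calc |rho X - s| * |x X n| ≤ ε / (8 * K) * K :=
              mul_le_mul b1.le (not_lt.1 hn) (abs_nonneg _) (by positivity)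
          _ = ε / 8 := by field_simp
    refine lt_of_le_of_lt ((norm_sum_le _ _).trans (sum_le_sum hs)) ?_
    rw [sum_add_distrib, sum_const, card_range, nsmul_eq_mul, ← sum_filter, sum_const, nsmul_eq_mul]
    nlinarith
  have h4 := key.add h1
  rw [zero_add] at h4
  refine h4.congr fun X => ?_
  ring

/-! ### several additive functions -/

variable {ι : Type} [Fintype ι]

/-- several additive functions, asymptotically uncorrelated -/
structure Vec (f : ι → ℕ → ℝ) (mu lam : ι → ℝ) : Prop where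
  add : ∀ i, ∀ m n : ℕ, 1 ≤ m → 1 ≤ n → Nat.Coprime m n → f i (m * n) = f i m + f i n
  bd : ∃ C : ℝ, 0 ≤ C ∧ ∀ i, ∀ p : ℕ, p.Prime → |f i p| ≤ C
  low : ∃ l : ℝ, 0 < l ∧ ∀ i, l ≤ lam i
  mean : ∃ C : ℝ, ∀ N : ℕ, 3 ≤ N → ∀ i, |Am (f i) N - mu i * LL N| ≤ C
  cov : ∃ C : ℝ, ∀ N : ℕ, 3 ≤ N → ∀ i j, |∑ p ∈ (Icc 1 N).filter Nat.Prime, f i p * f j p / p -
    (if i = j then lam i * LL N else 0)| ≤ C

variable {f : ι → ℕ → ℝ} {mu lam : ι → ℝ}

theorem Vec.pos (h : Vec f mu lam) (i : ι) : 0 < lam i := by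
  obtain ⟨l, h1, h2⟩ := h.low
  exact lt_of_lt_of_le h1 (h2 i)

/-- the linear combination -/
noncomputable def gg (f : ι → ℕ → ℝ) (lam t : ι → ℝ) (c : ℝ) (n : ℕ) : ℝ :=
  c * ∑ i, t i / √(lam i) * f i n

theorem gg_add (h : Vec f mu lam) (t : ι → ℝ) {c C : ℝ} (hC : ∀ i, ∀ p : ℕ, p.Prime → |f i p| ≤ C)
    (hc0 : 0 < c) (hc : c * (∑ i, |t i / √(lam i)| * C) ≤ 1) : AddF (gg f lam t c) := by
  constructor
  · intro m n hm hn hmn
    unfold gg
    rw [← mul_add, ← sum_add_distrib]
    congr 1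
    refine sum_congr rfl fun i _ => ?_
    rw [h.add i m n hm hn hmn, mul_add]
  · intro p hp
    unfold gg
    rw [abs_mul, abs_of_pos hc0]
    refine le_trans (mul_le_mul_of_nonneg_left ?_ hc0.le) hc
    refine (abs_sum_le_sum_abs _ _).trans (sum_le_sum fun i _ => ?_)
    rw [abs_mul]
    exact mul_le_mul_of_nonneg_left (hC i p hp) (abs_nonneg _)

theorem gg_am (t : ι → ℝ) (c : ℝ) (N : ℕ) :
    Am (gg f lam t c) N = c * ∑ i, t i / √(lam i) * Am (f i) N := by
  unfold Pool.Agent.H998_EK.Am gg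
  have e : ∀ i, t i / √(lam i) * ∑ p ∈ (Icc 1 N).filter Nat.Prime, f i p / p =
      ∑ p ∈ (Icc 1 N).filter Nat.Prime, t i / √(lam i) * (f i p / p) := fun i => mul_sum _ _ _
  simp only [e]
  rw [sum_comm, mul_sum]
  refine sum_congr rfl fun p _ => ?_
  rw [mul_div_assoc, sum_div]
  congr 1
  exact sum_congr rfl fun i _ => by ring

theorem gg_bq (t : ι → ℝ) (c : ℝ) (N : ℕ) :
    Bq (gg f lam t c) N = c ^ 2 * ∑ i, ∑ j, (t i / √(lam i)) * (t j / √(lam j)) *
      ∑ p ∈ (Icc 1 N).filter Nat.Prime, f i p * f j p / p := by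
  unfold Pool.Agent.H998_EK.Bq gg
  have e : ∀ i j, (t i / √(lam i)) * (t j / √(lam j)) *
      ∑ p ∈ (Icc 1 N).filter Nat.Prime, f i p * f j p / p =
      ∑ p ∈ (Icc 1 N).filter Nat.Prime, (t i / √(lam i) * f i p) * (t j / √(lam j) * f j p) / p := by
    intro i j
    rw [mul_sum]
    exact sum_congr rfl fun p _ => by ring
  simp only [e]
  have e2 : ∀ i, ∑ j, ∑ p ∈ (Icc 1 N).filter Nat.Prime,
      (t i / √(lam i) * f i p) * (t j / √(lam j) * f j p) / (p : ℝ) =
      ∑ p ∈ (Icc 1 N).filter Nat.Prime, ∑ j,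
        (t i / √(lam i) * f i p) * (t j / √(lam j) * f j p) / (p : ℝ) := fun i => sum_comm
  simp only [e2]
  rw [sum_comm, mul_sum]
  refine sum_congr rfl fun p _ => ?_
  rw [mul_pow, mul_div_assoc]
  congr 1
  rw [sq, sum_mul_sum, sum_div]
  refine sum_congr rfl fun i _ => ?_
  rw [sum_div]

theorem ll_pos : ∀ᶠ N : ℕ in atTop, 0 < LL N := LL_top.eventually_gt_atTop 0

theorem sqrt_ll_top : Tendsto (fun N : ℕ => √(LL N)) atTop atTop := Real.tendsto_sqrt_atTop.comp LL_top

theorem bound_div {a : ℕ → ℝ} {C : ℝ} (h : ∀ N : ℕ, 3 ≤ N → |a N| ≤ C) :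
    Tendsto (fun N => a N / √(LL N)) atTop (𝓝 0) := by
  have h1 : Tendsto (fun N : ℕ => C / √(LL N)) atTop (𝓝 0) :=
    tendsto_const_nhds.div_atTop sqrt_ll_top
  refine squeeze_zero_norm' ?_ h1
  filter_upwards [eventually_ge_atTop 3] with N hN
  rw [Real.norm_eq_abs, abs_div, abs_of_nonneg (Real.sqrt_nonneg _)]
  exact div_le_div_of_nonneg_right (h N hN) (Real.sqrt_nonneg _)

theorem bound_div' {a : ℕ → ℝ} {C : ℝ} (h : ∀ N : ℕ, 3 ≤ N → |a N| ≤ C) :
    Tendsto (fun N => a N / LL N) atTop (𝓝 0) := by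
  have h1 : Tendsto (fun N : ℕ => C / LL N) atTop (𝓝 0) :=
    tendsto_const_nhds.div_atTop LL_top
  refine squeeze_zero_norm' ?_ h1
  filter_upwards [eventually_ge_atTop 3, ll_pos] with N hN h0
  rw [Real.norm_eq_abs, abs_div, abs_of_pos h0]
  exact div_le_div_of_nonneg_right (h N hN) h0.le

theorem am_lim (h : Vec f mu lam) (t : ι → ℝ) (c : ℝ) :
    Tendsto (fun N : ℕ => (Am (gg f lam t c) N - c * (∑ i, t i / √(lam i) * mu i) * LL N) / √(LL N))
      atTop (𝓝 0) := by
  obtain ⟨C, hC⟩ := h.mean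
  have h1 : Tendsto (fun N : ℕ => c * ∑ i, t i / √(lam i) * ((Am (f i) N - mu i * LL N) / √(LL N)))
      atTop (𝓝 (c * ∑ i, t i / √(lam i) * 0)) := by
    refine Tendsto.const_mul _ (tendsto_finsetSum _ fun i _ => Tendsto.const_mul _ ?_)
    exact bound_div fun N hN => hC N hN i
  simp only [mul_zero, sum_const_zero] at h1
  refine h1.congr fun N => ?_
  rw [gg_am, mul_assoc, ← mul_sub, sum_mul, ← sum_sub_distrib, mul_div_assoc, sum_div]
  congr 1
  refine sum_congr rfl fun i _ => ?_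
  ring

theorem bq_lim (h : Vec f mu lam) (t : ι → ℝ) (c : ℝ) :
    Tendsto (fun N : ℕ => Bq (gg f lam t c) N / LL N) atTop (𝓝 (c ^ 2 * ∑ i, t i ^ 2)) := by
  obtain ⟨C, hC⟩ := h.cov
  have h0 : ∀ i j, Tendsto (fun N : ℕ => (∑ p ∈ (Icc 1 N).filter Nat.Prime, f i p * f j p / p) / LL N)
      atTop (𝓝 (if i = j then lam i else 0)) := by
    intro i j
    have h1 := bound_div' (a := fun N => ∑ p ∈ (Icc 1 N).filter Nat.Prime, f i p * f j p / p -
      (if i = j then lam i * LL N else 0)) fun N hN => hC N hN i j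
    have h2 : Tendsto (fun N : ℕ => (if i = j then lam i * LL N else 0) / LL N) atTop
        (𝓝 (if i = j then lam i else 0)) := by
      refine tendsto_const_nhds.congr' ?_
      filter_upwards [ll_pos] with N hN
      split_ifs
      · rw [mul_div_assoc, div_self hN.ne', mul_one]
      · rw [zero_div]
    have h3 := h1.add h2
    rw [zero_add] at h3
    refine h3.congr fun N => ?_
    rw [← add_div]
    congr 1
    ring
  have h1 : Tendsto (fun N : ℕ => c ^ 2 * ∑ i, ∑ j, (t i / √(lam i)) * (t j / √(lam j)) *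
      ((∑ p ∈ (Icc 1 N).filter Nat.Prime, f i p * f j p / p) / LL N)) atTop
      (𝓝 (c ^ 2 * ∑ i, ∑ j, (t i / √(lam i)) * (t j / √(lam j)) * (if i = j then lam i else 0))) := by
    refine Tendsto.const_mul _ (tendsto_finsetSum _ fun i _ => tendsto_finsetSum _ fun j _ =>
      Tendsto.const_mul _ (h0 i j))
  have e : ∑ i, ∑ j, (t i / √(lam i)) * (t j / √(lam j)) * (if i = j then lam i else 0) =
      ∑ i, t i ^ 2 := by
    refine sum_congr rfl fun i _ => ?_
    rw [sum_eq_single i]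
    · rw [if_pos rfl]
      have h2 := h.pos i
      have h3 : √(lam i) * √(lam i) = lam i := Real.mul_self_sqrt h2.le
      have h4 : √(lam i) ≠ 0 := (Real.sqrt_pos.2 h2).ne'
      field_simp
      rw [sq (√(lam i)), h3]
    · intro j _ hj
      rw [if_neg (Ne.symm hj), mul_zero]
    · intro h2
      exact absurd (mem_univ i) h2
  rw [e] at h1
  refine h1.congr fun N => ?_
  rw [gg_bq, mul_div_assoc, sum_div]
  congr 1
  refine sum_congr rfl fun i _ => ?_
  rw [sum_div]
  refine sum_congr rfl fun j _ => ?_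
  ring

/-- tightness -/
theorem tight {g : ℕ → ℝ} (hg : AddF g) (hB : Tendsto (Bq g) atTop atTop) {A B : ℕ} (hA : 1 ≤ A)
    (ε : ℝ) (hε : 0 < ε) : ∃ (K : ℝ) (N : ℕ), 0 < K ∧ ∀ X : ℕ, N ≤ X →
      (((range X).filter fun n => K < |FF g X (A * n + B)|).card : ℝ) ≤ ε * X := by
  obtain ⟨K1, h1⟩ := eventually_atTop.1 (phi_top.eventually (lt_mem_nhds (by linarith : 1 - ε / 4 < 1)))
  obtain ⟨K2, h2⟩ := eventually_atBot.1 (phi_bot.eventually (gt_mem_nhds (by linarith : 0 < ε / 4)))
  obtain ⟨K, hK0, hK1, hK2⟩ : ∃ K : ℝ, 0 < K ∧ K1 ≤ K ∧ -K ≤ K2 :=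
    ⟨max 1 (max K1 (-K2)), lt_of_lt_of_le one_pos (le_max_left _ _),
      (le_max_left _ _).trans (le_max_right _ _), by
        have : -K2 ≤ max 1 (max K1 (-K2)) := (le_max_right _ _).trans (le_max_right _ _)
        linarith⟩
  have g1 := h1 K hK1
  have g2 := h2 (-K) hK2
  have hne : ∀ i j : Unit, i ≠ j → (fun _ : Unit => A) i * (fun _ : Unit => B) j ≠
      (fun _ : Unit => A) j * (fun _ : Unit => B) i := fun i j h => absurd (Subsingleton.elim i j) h
  have hup := box_lim hg hB (a := fun _ : Unit => A) (b := fun _ => B) (fun _ => hA) hne (fun _ => K)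
  have hlo := box_lim hg hB (a := fun _ : Unit => A) (b := fun _ => B) (fun _ => hA) hne (fun _ => -K)
  simp only [Finset.univ_unique, Finset.prod_singleton, forall_const] at hup hlo
  obtain ⟨X₁, hX₁⟩ := eventually_atTop.1 (hup.eventually (lt_mem_nhds
    (by linarith : Phi K - ε / 4 < Phi K)))
  obtain ⟨X₂, hX₂⟩ := eventually_atTop.1 (hlo.eventually (gt_mem_nhds
    (by linarith : Phi (-K) < Phi (-K) + ε / 4)))
  refine ⟨K, X₁ + X₂ + 1, hK0, fun X hX => ?_⟩
  have a1 := hX₁ X (by omega)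
  have a2 := hX₂ X (by omega)
  have hX0 : (0 : ℝ) < X := by exact_mod_cast (by omega : 0 < X)
  rw [lt_div_iff₀ hX0] at a1
  rw [div_lt_iff₀ hX0] at a2
  have hsub : ((range X).filter fun n => K < |FF g X (A * n + B)|) ⊆
      (range X \ ((range X).filter fun n => FF g X (A * n + B) ≤ K)) ∪
        ((range X).filter fun n => FF g X (A * n + B) ≤ -K) := by
    intro n hn
    rw [mem_filter] at hn
    rw [mem_union, Finset.mem_sdiff, mem_filter, mem_filter]
    by_cases h3 : FF g X (A * n + B) ≤ K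
    · right
      refine ⟨hn.1, ?_⟩
      by_contra h4
      have h5 : |FF g X (A * n + B)| ≤ K := abs_le.2 ⟨by linarith, h3⟩
      linarith [hn.2]
    · exact Or.inl ⟨hn.1, fun h => h3 h.2⟩
  have hcard : (((range X).filter fun n => K < |FF g X (A * n + B)|).card : ℝ) ≤
      (X - (((range X).filter fun n => FF g X (A * n + B) ≤ K).card : ℝ)) +
        (((range X).filter fun n => FF g X (A * n + B) ≤ -K).card : ℝ) := by
    have h3 := (card_le_card hsub).trans (card_union_le _ _)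
    have h4 : (range X \ ((range X).filter fun n => FF g X (A * n + B) ≤ K)).card =
        X - ((range X).filter fun n => FF g X (A * n + B) ≤ K).card := by
      rw [card_sdiff_of_subset (filter_subset _ _), card_range]
    have h5 : ((range X).filter fun n => FF g X (A * n + B) ≤ K).card ≤ X := by
      have := card_filter_le (range X) fun n => FF g X (A * n + B) ≤ K
      rwa [card_range] at this
    rw [h4] at h3
    have h6 : (((range X).filter fun n => K < |FF g X (A * n + B)|).card : ℝ) ≤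
        ((X - ((range X).filter fun n => FF g X (A * n + B) ≤ K).card +
          ((range X).filter fun n => FF g X (A * n + B) ≤ -K).card : ℕ) : ℝ) := by
      exact_mod_cast h3
    rw [Nat.cast_add, Nat.cast_sub h5] at h6
    exact h6
  nlinarith

/-- the standardised vector -/
noncomputable def vv (f : ι → ℕ → ℝ) (mu lam : ι → ℝ) (X n : ℕ) (i : ι) : ℝ :=
  (f i n - mu i * LL X) / (√(lam i) * √(LL X))

theorem char_v (h : Vec f mu lam) {A B : ℕ} (hA : 1 ≤ A) (t : ι → ℝ) :
    Tendsto (fun X : ℕ => (∑ n ∈ range X,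
      Complex.exp ((∑ i, t i * vv f mu lam X (A * n + B) i : ℝ) * Complex.I)) / (X : ℂ)) atTop
      (𝓝 (Real.exp (-(∑ i, t i ^ 2) / 2) : ℂ)) := by
  obtain ⟨C, hC0, hC⟩ := h.bd
  obtain ⟨D, hD⟩ : ∃ D : ℝ, D = ∑ i, |t i / √(lam i)| * C := ⟨_, rfl⟩
  have hD0 : 0 ≤ D := by
    rw [hD]
    exact sum_nonneg fun i _ => mul_nonneg (abs_nonneg _) hC0
  obtain ⟨c, hc⟩ : ∃ c : ℝ, c = 1 / (1 + D) := ⟨_, rfl⟩
  have hc0 : 0 < c := by rw [hc]; positivity
  have hc1 : c * D ≤ 1 := by
    rw [hc, one_div, inv_mul_le_iff₀ (by positivity)]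
    linarith
  have hg : AddF (gg f lam t c) := gg_add h t hC hc0 (by rw [← hD]; exact hc1)
  obtain ⟨S, hS⟩ : ∃ S : ℝ, S = ∑ i, t i ^ 2 := ⟨_, rfl⟩
  have hS0 : 0 ≤ S := by
    rw [hS]
    exact sum_nonneg fun i _ => sq_nonneg _
  rw [← hS]
  rcases hS0.eq_or_lt with hS1 | hS1
  · -- all the `t i` are zero
    have ht : ∀ i, t i = 0 := by
      intro i
      have h1 : ∑ i, t i ^ 2 = 0 := by rw [← hS, ← hS1]
      have h2 := (sum_eq_zero_iff_of_nonneg fun i _ => sq_nonneg (t i)).1 h1 i (mem_univ i)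
      exact pow_eq_zero_iff (two_ne_zero) |>.1 h2
    have e : (Real.exp (-S / 2) : ℂ) = 1 := by
      rw [← hS1]
      simp
    rw [e]
    refine tendsto_const_nhds.congr' ?_
    filter_upwards [eventually_gt_atTop 0] with X hX
    have hX0 : (X : ℂ) ≠ 0 := by exact_mod_cast hX.ne'
    simp only [ht, zero_mul, sum_const_zero, Complex.ofReal_zero, Complex.exp_zero, sum_const,
      card_range, nsmul_eq_mul, mul_one]
    exact (div_self hX0).symm
  · have hbq := bq_lim h t c
    rw [← hS] at hbq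
    have hcS : 0 < c ^ 2 * S := by positivity
    have hB : Tendsto (Bq (gg f lam t c)) atTop atTop := by
      have h1 := hbq.pos_mul_atTop hcS LL_top
      refine h1.congr' ?_
      filter_upwards [ll_pos] with N hN
      show Bq (gg f lam t c) N / LL N * LL N = _
      field_simp
    have hch := char_lim hg hB (fun _ : Unit => √S) (a := fun _ => A) (b := fun _ => B)
      (fun _ => hA) (fun i j h => absurd (Subsingleton.elim i j) h)
    simp only [Finset.univ_unique, Finset.sum_singleton, Real.sq_sqrt hS0] at hch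
    have hr : Tendsto (fun N : ℕ => √(Bq (gg f lam t c) N / LL N) / c) atTop (𝓝 (√S)) := by
      have h1 := (hbq.sqrt).div_const c
      have e : √(c ^ 2 * S) / c = √S := by
        rw [Real.sqrt_mul (sq_nonneg c), Real.sqrt_sq hc0.le]
        field_simp
      rwa [e] at h1
    have he : Tendsto (fun N : ℕ => (Am (gg f lam t c) N -
        c * (∑ i, t i / √(lam i) * mu i) * LL N) / √(LL N) / c) atTop (𝓝 0) := by
      have h1 := (am_lim h t c).div_const c
      rwa [zero_div] at h1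
    have hp := perturb (x := fun X n => FF (gg f lam t c) X (A * n + B)) hch
      (tight hg hB hA) hr he
    refine hp.congr' ?_
    filter_upwards [ll_pos, hB.eventually_gt_atTop 0] with X hX hX2
    congr 1
    refine sum_congr rfl fun n _ => ?_
    congr 2
    refine congrArg (fun z : ℝ => (z : ℂ)) ?_
    unfold Pool.Agent.H998_EK.FF
    have h1 : √(Bq (gg f lam t c) X) ≠ 0 := (Real.sqrt_pos.2 hX2).ne'
    have h2 : √(LL X) ≠ 0 := (Real.sqrt_pos.2 hX).ne'
    have h3 : √(Bq (gg f lam t c) X / LL X) = √(Bq (gg f lam t c) X) / √(LL X) :=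
      Real.sqrt_div hX2.le _
    rw [h3]
    have h4 : √(Bq (gg f lam t c) X) / √(LL X) / c *
        ((gg f lam t c (A * n + B) - Am (gg f lam t c) X) / √(Bq (gg f lam t c) X)) =
        (gg f lam t c (A * n + B) - Am (gg f lam t c) X) / √(LL X) / c := by
      field_simp
    rw [h4, ← add_div, ← add_div]
    have h5 : gg f lam t c (A * n + B) - Am (gg f lam t c) X + (Am (gg f lam t c) X -
        c * (∑ i, t i / √(lam i) * mu i) * LL X) =
        c * ∑ i, t i / √(lam i) * (f i (A * n + B) - mu i * LL X) := by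
      have h6 : ∑ i, t i / √(lam i) * (f i (A * n + B) - mu i * LL X) =
          ∑ i, t i / √(lam i) * f i (A * n + B) - (∑ i, t i / √(lam i) * mu i) * LL X := by
        rw [sum_mul, ← sum_sub_distrib]
        exact sum_congr rfl fun i _ => by ring
      rw [h6]
      unfold gg
      ring
    rw [h5, mul_div_assoc, mul_comm c, mul_div_assoc, div_self hc0.ne', mul_one, sum_div]
    refine sum_congr rfl fun i _ => ?_
    unfold vv
    have h7 : √(lam i) ≠ 0 := (Real.sqrt_pos.2 (h.pos i)).ne'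
    field_simp

/-- **the joint limit law** -/
theorem box_v (h : Vec f mu lam) {A B : ℕ} (hA : 1 ≤ A) (u : ι → ℝ) :
    Tendsto (fun X : ℕ => (((range X).filter fun n => ∀ i, vv f mu lam X (A * n + B) i ≤ u i).card : ℝ) /
      X) atTop (𝓝 (∏ i, Phi (u i))) := by
  rw [← tendsto_add_atTop_iff_nat 1]
  have := levy_box (fun X n => WithLp.toLp 2 (fun i => vv f mu lam (X + 1) (A * n + B) i))
    (fun t => ?_) u
  · exact this
  have h1 := (tendsto_add_atTop_iff_nat 1).2 (char_v h hA (B := B) (fun i => t i))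
  have h2 : (Real.exp (-(∑ i, t i ^ 2) / 2) : ℂ) = Complex.exp (-‖t‖ ^ 2 / 2) := by
    rw [← Complex.ofReal_pow, EuclideanSpace.real_norm_sq_eq]
    push_cast
    rfl
  rw [h2] at h1
  refine h1.congr fun X => ?_
  congr 1

end Pool.Agent.H468.WV
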